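import Pool.Agent.H43.TL2.M10
import Pool.Agent.H43.TL2.M20

/-!
# Charts of a surface: nearby points, scaling, coordinate changes

* `IsChart.near`: all conditions hold for `p` near `0`: `AnalyticAt.eventually_analyticAt`, `eventually_eventually_nhds`, and
  `p ↦ σ p`, `p ↦ (σ p, 1)` are continuous at `0`.  (`τ (σ (p + x)) - p = x`; `σ (p + (τ y - p)) = σ (τ y)`.)
* `IsChart.scale`: `y ↦ a⁻¹ • y` is continuous; `a⁻¹ • (c • y) = c • (a⁻¹ • y)`.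
* `IsChart.comp`: `σ₁ = σ ∘ θ`, `τ₁ = θ' ∘ τ`; `σ₁ 0 = σ 0`, `τ (σ 0) = 0` (`left.self_of_nhds`), so `τ y → 0` for `y → σ 0`.
  `right`: `y = c • σ (τ y) = c • σ (θ (θ' (τ y)))`.
* `IsChart.trans`: `σ' 0 = a • σ 0`, `θ p = τ (a⁻¹ • σ' p)`, `θ' p = τ' (a • σ p)`.  `Pr (σ' p) (σ (θ p))`: `h.right` at
  `y = a⁻¹ • σ' p`.  `θ (θ' p) = p`: by `h'.right` at `y = a • σ p`: `a • σ p = c • σ' (θ' p)` with `c → 1` for `p → 0`: choose
  a continuous linear form `Λ` with `Λ (σ 0) ≠ 0` (`exists_dual_vector`), `c = Λ (a • σ p) / Λ (σ' (θ' p))`; so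
  `a⁻¹ • σ' (θ' p) = c⁻¹ • σ p` and `τ (c⁻¹ • σ p) = τ (σ p) = p` by `h.inv` and `h.left`.  `θ' (θ p) = p` by symmetry (it is
  the same statement with the roles of the two charts exchanged: prove it as an auxiliary lemma).
-/

open Topology Filter

noncomputable section

namespace Pool.Agent.H17BP

variable {V : Type} [NormedAddCommGroup V] [NormedSpace ℂ V] {X : Set V} {σ σ' : ℂ × ℂ → V} {τ τ' : V → ℂ × ℂ}

theorem Pr.refl (x : V) : Pr x x := ⟨1, one_ne_zero, (one_smul _ _).symm⟩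

theorem Pr.symm {x y : V} (h : Pr x y) : Pr y x := by
  obtain ⟨c, hc, rfl⟩ := h
  exact ⟨c⁻¹, inv_ne_zero hc, by rw [smul_smul, inv_mul_cancel₀ hc, one_smul]⟩

theorem Pr.trans {x y z : V} (h : Pr x y) (h' : Pr y z) : Pr x z := by
  obtain ⟨c, hc, rfl⟩ := h
  obtain ⟨d, hd, rfl⟩ := h'
  exact ⟨c * d, mul_ne_zero hc hd, by rw [smul_smul]⟩

private theorem chLem_add (p : ℂ × ℂ) : Tendsto (fun x : ℂ × ℂ => p + x) (𝓝 0) (𝓝 p) := by
  have := (continuous_const_add p).tendsto (0 : ℂ × ℂ)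
  rwa [add_zero] at this

theorem IsChart.near [FiniteDimensional ℂ V] (h : IsChart X σ τ) :
    ∀ᶠ p in 𝓝 (0 : ℂ × ℂ), IsChart X (fun x => σ (p + x)) (fun y => τ y - p) := by
  have : CompleteSpace V := FiniteDimensional.complete ℂ V
  have hσ : Tendsto σ (𝓝 0) (𝓝 (σ 0)) := h.σ_an.continuousAt.tendsto
  have hσ1 : Tendsto (fun p => (σ p, (1 : ℂ))) (𝓝 0) (𝓝 (σ 0, (1 : ℂ))) := hσ.prodMk_nhds tendsto_const_nhds
  filter_upwards [h.σ_an.eventually_analyticAt, h.σ_mem.eventually_nhds, h.σ_an.continuousAt.eventually_ne h.ne,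
    hσ.eventually h.τ_an.eventually_analyticAt, h.left.eventually_nhds, hσ.eventually h.right.eventually_nhds,
    hσ1.eventually h.inv.eventually_nhds] with p h1 h2 h3 h4 h5 h6 h7
  have e0 : p + 0 = p := add_zero p
  refine ⟨?_, ?_, ?_, ?_, ?_, ?_, ?_⟩
  · refine AnalyticAt.comp (g := σ) (f := fun x : ℂ × ℂ => p + x) ?_ (analyticAt_const.add analyticAt_id)
    rw [e0]
    exact h1
  · exact (chLem_add p).eventually h2
  · simp only [e0]
    exact h3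
  · simp only [e0]
    exact h4.sub analyticAt_const
  · filter_upwards [(chLem_add p).eventually h5] with x hx
    rw [hx, add_sub_cancel_left]
  · simp only [e0]
    filter_upwards [h6] with y hy hyX
    obtain ⟨c, hc, hy2⟩ := hy hyX
    refine ⟨c, hc, ?_⟩
    rw [add_sub_cancel]
    exact hy2
  · simp only [e0]
    filter_upwards [h7] with y hy
    rw [hy]

theorem IsChart.scale (h : IsChart X σ τ) (hX : ∀ x ∈ X, ∀ c : ℂ, c ≠ 0 → c • x ∈ X) {a : ℂ} (ha : a ≠ 0) :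
    IsChart X (fun p => a • σ p) (fun y => τ (a⁻¹ • y)) := by
  have e1 : a⁻¹ • (a • σ 0) = σ 0 := by rw [smul_smul, inv_mul_cancel₀ ha, one_smul]
  have e2 : Tendsto (fun y : V => a⁻¹ • y) (𝓝 (a • σ 0)) (𝓝 (σ 0)) := by
    have := (continuous_const_smul a⁻¹).tendsto (a • σ 0)
    rwa [e1] at this
  refine ⟨h.σ_an.const_smul (c := a), ?_, smul_ne_zero ha h.ne, ?_, ?_, ?_, ?_⟩
  · filter_upwards [h.σ_mem] with p hp
    exact hX _ hp _ ha
  · refine AnalyticAt.comp (g := τ) (f := fun y : V => a⁻¹ • y) ?_ (analyticAt_id.const_smul (c := a⁻¹))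
    rw [e1]
    exact h.τ_an
  · filter_upwards [h.left] with p hp
    rw [smul_smul, inv_mul_cancel₀ ha, one_smul, hp]
  · filter_upwards [e2.eventually h.right] with y hy hyX
    obtain ⟨c, hc, hy2⟩ := hy (hX _ hyX _ (inv_ne_zero ha))
    refine ⟨c, hc, ?_⟩
    rw [smul_comm, ← hy2, smul_smul, mul_inv_cancel₀ ha, one_smul]
  · have e3 : Tendsto (fun p : V × ℂ => (a⁻¹ • p.1, p.2)) (𝓝 (a • σ 0, (1 : ℂ))) (𝓝 (σ 0, (1 : ℂ))) := by
      have e4 : Continuous fun p : V × ℂ => (a⁻¹ • p.1, p.2) := (continuous_fst.const_smul a⁻¹).prodMk continuous_snd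
      have := e4.tendsto (a • σ 0, (1 : ℂ))
      simpa only [e1] using this
    filter_upwards [e3.eventually h.inv] with p hp
    rw [smul_comm]
    exact hp

theorem IsChart.comp (h : IsChart X σ τ) {θ θ' : ℂ × ℂ → ℂ × ℂ} (hθ : Bihol θ) (hθ' : Bihol θ')
    (h1 : ∀ᶠ x in 𝓝 0, θ' (θ x) = x) (h2 : ∀ᶠ x in 𝓝 0, θ (θ' x) = x) :
    IsChart X (fun x => σ (θ x)) (fun y => θ' (τ y)) := by
  have hτ0 : τ (σ 0) = 0 := h.left.self_of_nhds
  have hτ : Tendsto τ (𝓝 (σ 0)) (𝓝 0) := by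
    have := h.τ_an.continuousAt.tendsto
    rwa [hτ0] at this
  refine ⟨?_, hθ.tendsto.eventually h.σ_mem, ?_, ?_, ?_, ?_, ?_⟩
  · refine AnalyticAt.comp (g := σ) (f := θ) ?_ hθ.an
    rw [hθ.zero]
    exact h.σ_an
  · simp only [hθ.zero]
    exact h.ne
  · simp only [hθ.zero]
    refine AnalyticAt.comp (g := θ') (f := τ) ?_ h.τ_an
    rw [hτ0]
    exact hθ'.an
  · filter_upwards [hθ.tendsto.eventually h.left, h1] with x hx hx1
    rw [hx, hx1]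
  · simp only [hθ.zero]
    filter_upwards [h.right, hτ.eventually h2] with y hy hy2 hyX
    obtain ⟨c, hc, hy3⟩ := hy hyX
    refine ⟨c, hc, ?_⟩
    rw [hy2]
    exact hy3
  · simp only [hθ.zero]
    filter_upwards [h.inv] with p hp
    rw [hp]

private theorem chLem_dual {x : V} (hx : x ≠ 0) : ∃ Λ : V →L[ℂ] ℂ, Λ x ≠ 0 := by
  obtain ⟨Λ, hΛ⟩ := exists_dual_vector ℂ x (norm_ne_zero_iff.mpr hx)
  refine ⟨Λ, ?_⟩
  rw [hΛ.2]
  simpa using hx

private theorem chLem_trans (h : IsChart X σ τ) (h' : IsChart X σ' τ') (h0 : σ' 0 = σ 0) :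
    ∀ᶠ p in 𝓝 (0 : ℂ × ℂ), τ (σ' (τ' (σ p))) = p := by
  obtain ⟨Λ, hΛ⟩ := chLem_dual h.ne
  have hσ : Tendsto σ (𝓝 0) (𝓝 (σ 0)) := h.σ_an.continuousAt.tendsto
  have hσ' : Tendsto σ' (𝓝 0) (𝓝 (σ 0)) := by
    have := h'.σ_an.continuousAt.tendsto
    rwa [h0] at this
  have hτ' : Tendsto τ' (𝓝 (σ 0)) (𝓝 0) := by
    have := h'.τ_an.continuousAt.tendsto
    rwa [h'.left.self_of_nhds, h0] at this
  have hθ' : Tendsto (fun p => σ' (τ' (σ p))) (𝓝 0) (𝓝 (σ 0)) := hσ'.comp (hτ'.comp hσ)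
  have h1 : Tendsto (fun p => Λ (σ p)) (𝓝 0) (𝓝 (Λ (σ 0))) := (Λ.continuous.tendsto _).comp hσ
  have h2 : Tendsto (fun p => Λ (σ' (τ' (σ p)))) (𝓝 0) (𝓝 (Λ (σ 0))) := (Λ.continuous.tendsto _).comp hθ'
  have h3 : Tendsto (fun p => (σ p, Λ (σ' (τ' (σ p))) / Λ (σ p))) (𝓝 0) (𝓝 (σ 0, (1 : ℂ))) := by
    have := h2.div h1 hΛ
    rw [div_self hΛ] at this
    exact hσ.prodMk_nhds this
  have h4 : ∀ᶠ y in 𝓝 (σ 0), y ∈ X → ∃ c : ℂ, c ≠ 0 ∧ y = c • σ' (τ' y) := by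
    rw [← h0]
    exact h'.right
  filter_upwards [hσ.eventually h4, h.σ_mem, h3.eventually h.inv, h.left, h1.eventually_ne hΛ, h2.eventually_ne hΛ]
    with p g1 g2 g3 g4 g5 g6
  obtain ⟨c, hc, g7⟩ := g1 g2
  have g8 : Λ (σ p) = c * Λ (σ' (τ' (σ p))) := by
    conv_lhs => rw [g7]
    rw [map_smul, smul_eq_mul]
  have g9 : Λ (σ' (τ' (σ p))) / Λ (σ p) = c⁻¹ := by
    rw [div_eq_iff g5, g8, ← mul_assoc, inv_mul_cancel₀ hc, one_mul]
  have g10 : σ' (τ' (σ p)) = c⁻¹ • σ p := by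
    have := congrArg (fun v => c⁻¹ • v) g7
    simp only [smul_smul, inv_mul_cancel₀ hc, one_smul] at this
    exact this.symm
  simp only [g9] at g3
  rw [g10, g3, g4]

/-- Two charts at the same point differ by a local biholomorphism and factors. -/
theorem IsChart.trans (hX : ∀ x ∈ X, ∀ c : ℂ, c ≠ 0 → c • x ∈ X) (h : IsChart X σ τ) (h' : IsChart X σ' τ')
    (h0 : Pr (σ' 0) (σ 0)) : ∃ θ : ℂ × ℂ → ℂ × ℂ, Bihol θ ∧ ∀ᶠ p in 𝓝 (0 : ℂ × ℂ), Pr (σ' p) (σ (θ p)) := by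
  obtain ⟨a, ha, h0⟩ := h0
  have hs := h.scale hX ha
  have h1 := chLem_trans hs h' h0
  have h2 := chLem_trans h' hs h0.symm
  have hσ' : Tendsto σ' (𝓝 0) (𝓝 (a • σ 0)) := by
    have := h'.σ_an.continuousAt.tendsto
    rwa [h0] at this
  have ht0 : τ (a⁻¹ • σ' 0) = 0 := by
    have := hs.left.self_of_nhds
    rw [h0]
    exact this
  have ht0' : τ' (a • σ 0) = 0 := by
    have := h'.left.self_of_nhds
    rwa [h0] at this
  refine ⟨fun p => τ (a⁻¹ • σ' p), ⟨?_, ht0, fun p => τ' (a • σ p), ?_, ht0', h2, h1⟩, ?_⟩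
  · refine AnalyticAt.comp (g := fun y => τ (a⁻¹ • y)) (f := σ') ?_ h'.σ_an
    rw [h0]
    exact hs.τ_an
  · refine AnalyticAt.comp (g := τ') (f := fun p => a • σ p) ?_ hs.σ_an
    rw [← h0]
    exact h'.τ_an
  · filter_upwards [hσ'.eventually hs.right, h'.σ_mem] with p h3 h4
    obtain ⟨c, hc, h5⟩ := h3 h4
    refine ⟨c * a, mul_ne_zero hc ha, ?_⟩
    rw [mul_smul]
    exact h5

end Pool.Agent.H17BP
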