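import Pool.Agent.H43.TL2.H17BP.ChLem
import Pool.Agent.H43.TL2.M34

/-!
# The resolution number at a point of the surface

* `ResAt.chart`: let `σ, τ, g` be as in `ResAt`; `σ' p = c • σ (θ p)`, `c ≠ 0` near `0` (`IsChart.trans`).  As `B` is a cone,
  `σ' p ∈ B ↔ σ (θ p) ∈ B ↔ g (θ p) = 0`: `g ∘ θ` is a local equation, `ResN.comp`.
* `ResAt.pr`: `IsChart.scale` of the chart (the value at `0` is `a • x = y`) and `ResAt.chart`.
* `ResAt.near`: for `y ∈ X` near `x`: `y = c • σ (τ y)`, `p = τ y` near `0` (`τ x = 0`); `p ≠ 0` because `y` is not proportional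
  to `x = σ 0`.  `IsChart.near`: `x ↦ σ (p + x)` is a chart at `σ p`, `g (p + ·)` a local equation
  (`eventually_eventually_nhds`), `Mono` by `ResN.near`.  So `ResAt X B (σ p) 0`, then `ResAt.pr`.
* `exists_resAt`: choose a chart `σ` at `x` (`Surface.chart`) and `i` (`Eqs.gen`); `g p = Q i (σ p)` is analytic at `0`, and for
  `p` near `0`: `σ p ∈ B ↔ g p = 0` (`mem_iff`, `gen`); `g` does not vanish identically near `0` by `thin`; `exists_resN`.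
* `ResAt.of_notMem`: `x ∉ B`: with `i` and `g` as before, `g 0 = Q i x ≠ 0` (otherwise `x ∈ B` by `gen`,
  `self_of_nhds`), so `Mono g` with `a = b = 0`.
* `ResAt.nodal`: `g = S^a T^b u`.  Let `θ = (S, T)`, `θ'` the inverse germ; the chart `σ ∘ θ'` (`IsChart.comp`), in
  which `B` is given by `g (θ' x) = x.1^a x.2^b u(θ' x) = 0`.  If `a = b = 0`: not in `B` near `0`; `b = 0`, `a ≠ 0`: `x.1 = 0`;
  `a ≠ 0`, `b ≠ 0`: `x.1 x.2 = 0`; `a = 0`, `b ≠ 0`: exchange `S`, `T` (`Coord.symm`).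
-/

open Topology Filter

noncomputable section

namespace Pool.Agent.H17BP

variable {V : Type} [NormedAddCommGroup V] [NormedSpace ℂ V] {X B : Set V} {σ' : ℂ × ℂ → V} {τ' : V → ℂ × ℂ}
  {x y : V} {n k : ℕ}

theorem ResS_pr_mem (hB : ∀ x ∈ B, ∀ c : ℂ, c ≠ 0 → c • x ∈ B) (h : Pr x y) : x ∈ B ↔ y ∈ B := by
  obtain ⟨c, hc, rfl⟩ := h
  refine ⟨fun h1 => ?_, fun h1 => hB _ h1 c hc⟩
  have h2 := hB _ h1 c⁻¹ (inv_ne_zero hc)
  rwa [smul_smul, inv_mul_cancel₀ hc, one_smul] at h2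

theorem ResAt.pr (hX : ∀ x ∈ X, ∀ c : ℂ, c ≠ 0 → c • x ∈ X) (hB : ∀ x ∈ B, ∀ c : ℂ, c ≠ 0 → c • x ∈ B)
    (h : ResAt X B x n) (hy : Pr y x) : ResAt X B y n := by
  obtain ⟨σ, τ, g, hc, hx, hg, hr⟩ := h
  obtain ⟨a, ha, rfl⟩ := hy
  refine ⟨fun p => a • σ p, fun y => τ (a⁻¹ • y), g, hc.scale hX ha, ?_, ⟨hg.1, ?_⟩, hr⟩
  · show a • σ 0 = a • x
    rw [hx]
  · filter_upwards [hg.2] with p hp
    rw [ResS_pr_mem hB (⟨a, ha, rfl⟩ : Pr (a • σ p) (σ p))]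
    exact hp

end Pool.Agent.H17BP
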